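import Mathlib
import Pool.Agent.Helper37.RG3.Goals

set_option autoImplicit false
set_option linter.unusedSectionVars false

/-!
The ten vertex lemma.
-/

namespace Pool.Agent.Helper53.RG3

open Finset Pool.Agent.Helper37.RG3

section aux

variable {V : Type} [Fintype V] [DecidableEq V]

theorem cut_ge {U : Finset V} {w : V → V → ℕ} {r : ℕ} (h : RG U w (r + 1)) (hU : U.card = 10)
    (hc : ∀ X, X ⊆ U → Odd X.card → 3 ≤ X.card → X.card + 3 ≤ U.card → r + 1 < ct w X)
    {X : Finset V} (hX : X ⊆ U) (ho : Odd X.card) (h3 : 3 ≤ X.card) (h7 : X.card ≤ 7) :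
    r + 3 ≤ ct w X := by
  have h1 := hc X hX ho h3 (by omega)
  have h2 := h.ct_odd_parity hX ho
  omega

theorem cut_nine {U : Finset V} {w : V → V → ℕ} {r : ℕ} (h : RG U w (r + 1)) (hU : U.card = 10)
    {X : Finset V} (hX : X ⊆ U) (h9 : X.card = 9) : ct w X = r + 1 := by
  have h1 : (U \ X).card = 1 := by
    rw [Finset.card_sdiff_of_subset hX]
    omega
  obtain ⟨u, hu⟩ := Finset.card_eq_one.mp h1
  have hu' : u ∈ U := by
    have : u ∈ U \ X := by rw [hu]; simp
    exact (Finset.mem_sdiff.mp this).1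
  rw [← h.ct_compl hX, hu]
  exact h.ct_singleton hu'

theorem cut_one {U : Finset V} {w : V → V → ℕ} {r : ℕ} (h : RG U w (r + 1))
    {X : Finset V} (hX : X ⊆ U) (h1 : X.card = 1) : ct w X = r + 1 := by
  obtain ⟨u, rfl⟩ := Finset.card_eq_one.mp h1
  exact h.ct_singleton (hX (by simp))

/-- The set found by a perfect matching. -/
theorem five {U : Finset V} {w : V → V → ℕ} {r : ℕ} (h : RG U w (r + 1)) (hU : U.card = 10)
    (hc : ∀ X, X ⊆ U → Odd X.card → 3 ≤ X.card → X.card + 3 ≤ U.card → r + 1 < ct w X)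
    {m : V → V} (hm : PM U w m) {X : Finset V} (hX : X ⊆ U) (ho : Odd X.card)
    (hlt : ct w X < r + cr m X) :
    X.card = 5 ∧ ct w X = r + 3 ∧ ∀ u ∈ U, (u ∈ X ↔ m u ∉ X) := by
  have hle : X.card ≤ 10 := hU ▸ Finset.card_le_card hX
  have hcr1 := cr_le m X
  have hcr2 := cr_le m (U \ X)
  rw [cr_compl h hm hX, Finset.card_sdiff_of_subset hX, hU] at hcr2
  have hcard : X.card = 5 := by
    obtain ⟨k, hk⟩ := ho
    have hk4 : k ≤ 4 := by omega
    have ho' : Odd X.card := ⟨k, hk⟩
    by_contra hne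
    rcases Nat.lt_or_ge k 1 with h0 | h0
    · have := cut_one h hX (by omega)
      omega
    · rcases Nat.lt_or_ge 3 k with h4 | h4
      · have := cut_nine h hU hX (by omega)
        omega
      · have := cut_ge h hU hc hX ho' (by omega) (by omega)
        omega
  have hge := cut_ge h hU hc hX ho (by omega) (by omega)
  have hpar := cr_parity h hm hX
  have hpar2 := h.ct_odd_parity hX ho
  have hcr : cr m X = X.card := by omega
  have hcr' : cr m (U \ X) = (U \ X).card := by
    rw [cr_compl h hm hX, Finset.card_sdiff_of_subset hX, hU]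
    omega
  refine ⟨hcard, by omega, ?_⟩
  have e1 : (X.filter fun x => m x ∉ X) = X :=
    Finset.eq_of_subset_of_card_le (Finset.filter_subset _ _) (by unfold cr at hcr; omega)
  have e2 : ((U \ X).filter fun x => m x ∉ U \ X) = U \ X :=
    Finset.eq_of_subset_of_card_le (Finset.filter_subset _ _) (by unfold cr at hcr'; omega)
  intro u hu
  constructor
  · intro huX
    rw [← e1, mem_filter] at huX
    exact huX.2
  · intro hmu
    by_contra huX
    have h1 : u ∈ U \ X := Finset.mem_sdiff.mpr ⟨hu, huX⟩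
    rw [← e2, mem_filter] at h1
    exact h1.2 (Finset.mem_sdiff.mpr ⟨hm.mem h hu, hmu⟩)

/-- The two five-sets cannot cross in an odd number of vertices. -/
theorem cross {U : Finset V} {w : V → V → ℕ} {r : ℕ} (h : RG U w (r + 1)) (hU : U.card = 10)
    (hc : ∀ X, X ⊆ U → Odd X.card → 3 ≤ X.card → X.card + 3 ≤ U.card → r + 1 < ct w X)
    {m : V → V} (hm : PM U w m) {X Z : Finset V} (hX : X ⊆ U) (hZ : Z ⊆ U)
    (cX : X.card = 5) (cZ : Z.card = 5) (tX : ct w X = r + 3) (tZ : ct w Z = r + 3)
    {a b : V} (ha : a ∈ X) (hb : b ∈ X) (hab : a ∈ Z ↔ b ∉ Z)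
    (hmm : ∀ u ∈ X, u ≠ a → u ≠ b → m u ∉ X ∧ (u ∈ Z ↔ m u ∉ Z))
    (ho : Odd (X ∩ Z).card) : False := by
  have hs := submod w h.symm X Z
  have hiu := Finset.card_union_add_card_inter X Z
  have hsub : X ∩ Z ⊆ U := Finset.inter_subset_left.trans hX
  have hsubu : X ∪ Z ⊆ U := Finset.union_subset hX hZ
  have hdi : (X \ Z).card + (X ∩ Z).card = X.card := Finset.card_sdiff_add_card_inter X Z
  have hpos : 1 ≤ (X \ Z).card := by
    rw [Nat.one_le_iff_ne_zero, Ne, Finset.card_eq_zero, ← Ne, ← Finset.nonempty_iff_ne_empty]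
    by_cases haZ : a ∈ Z
    · exact ⟨b, Finset.mem_sdiff.mpr ⟨hb, hab.mp haZ⟩⟩
    · exact ⟨a, Finset.mem_sdiff.mpr ⟨ha, haZ⟩⟩
  -- the matching edges between the differences
  have hbt : (X \ Z).card ≤ bt w (X \ Z) (Z \ X) + 1 := by
    set S := ((X \ Z).erase a).erase b with hS
    have hScard : (X \ Z).card ≤ S.card + 1 := by
      by_cases haZ : a ∈ Z
      · have : (X \ Z).erase a = X \ Z :=
          Finset.erase_eq_of_notMem (by simp [haZ])
        rw [hS, this]
        have := Finset.pred_card_le_card_erase (s := X \ Z) (a := b)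
        omega
      · have hbZ : b ∈ Z := by
          by_contra hbZ
          exact haZ (hab.mpr hbZ)
        have h2 : ((X \ Z).erase a).erase b = (X \ Z).erase a :=
          Finset.erase_eq_of_notMem (by simp [hbZ])
        rw [hS, h2]
        have := Finset.pred_card_le_card_erase (s := X \ Z) (a := a)
        omega
    have hSle : S.card ≤ bt w (X \ Z) (Z \ X) := by
      have h1 : bt w S (Z \ X) ≤ bt w (X \ Z) (Z \ X) :=
        bt_mono w ((Finset.erase_subset _ _).trans (Finset.erase_subset _ _))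
          (Finset.Subset.refl _)
      refine le_trans ?_ h1
      rw [Finset.card_eq_sum_ones]
      unfold bt
      refine Finset.sum_le_sum fun u hu => ?_
      rw [hS, mem_erase, mem_erase, mem_sdiff] at hu
      obtain ⟨hub, hua, huX, huZ⟩ := hu
      obtain ⟨h3, h4⟩ := hmm u huX hua hub
      have h5 : m u ∈ Z := by
        by_contra h5
        exact huZ (h4.mpr h5)
      have h6 : w u (m u) ≠ 0 := hm.adj u (hX huX)
      have h7 : m u ∈ Z \ X := Finset.mem_sdiff.mpr ⟨h5, h3⟩
      have h8 : w u (m u) ≤ ∑ v ∈ Z \ X, w u v :=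
        Finset.single_le_sum (f := fun v => w u v) (fun v _ => Nat.zero_le _) h7
      omega
    omega
  obtain ⟨k, hk⟩ := ho
  have hk2 : k < 2 := by omega
  rcases Nat.lt_or_ge k 1 with h0 | h0
  · have h1 := cut_one h hsub (by omega)
    have h2 := cut_nine h hU hsubu (by omega)
    omega
  · have h1 := cut_ge h hU hc hsub ⟨k, hk⟩ (by omega) (by omega)
    have h2 := cut_ge h hU hc hsubu ⟨3, by omega⟩ (by omega) (by omega)
    omega

/-- Exchanging two edges of a perfect matching. -/
theorem exch {U : Finset V} {w : V → V → ℕ} {r : ℕ} (h : RG U w r) {m : V → V} (hm : PM U w m)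
    {a b : V} (ha : a ∈ U) (hb : b ∈ U) (hab : a ≠ b) (hmb : m a ≠ b)
    (hw : w a b ≠ 0) (hw' : w (m a) (m b) ≠ 0) :
    ∃ m' : V → V, PM U w m' ∧ m' a = b ∧ m' (m a) = m b ∧
      ∀ u, u ≠ a → u ≠ b → u ≠ m a → u ≠ m b → m' u = m u := by
  have hma : m a ∈ U := hm.mem h ha
  have hmbU : m b ∈ U := hm.mem h hb
  have hna : m a ≠ a := hm.ne h ha
  have hnb : m b ≠ b := hm.ne h hb
  have hba : m b ≠ a := by
    intro he
    apply hmb
    rw [← he, hm.invol]
  have hmm : m a ≠ m b := by
    intro he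
    apply hab
    rw [← hm.invol a, he, hm.invol]
  set s := Equiv.swap b (m a) with hs
  have sa : s a = a := Equiv.swap_apply_of_ne_of_ne hab hna.symm
  have sb : s b = m a := Equiv.swap_apply_left _ _
  have sma : s (m a) = b := Equiv.swap_apply_right _ _
  have smb : s (m b) = m b := Equiv.swap_apply_of_ne_of_ne hnb hmm.symm
  refine ⟨fun u => s (m (s u)), ⟨?_, ?_, ?_⟩, ?_, ?_, ?_⟩
  · intro u
    show s (m (s (s (m (s u))))) = u
    have hss : ∀ v, s (s v) = v := fun v => by
      rw [hs, ← Equiv.Perm.mul_apply, Equiv.swap_mul_self, Equiv.Perm.one_apply]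
    rw [hss, hm.invol, hss]
  · intro u hu
    have h1 : s u = u := Equiv.swap_apply_of_ne_of_ne (by rintro rfl; exact hu hb)
      (by rintro rfl; exact hu hma)
    show s (m (s u)) = u
    rw [h1, hm.out u hu, h1]
  · intro u hu
    show w u (s (m (s u))) ≠ 0
    by_cases h1 : u = a
    · subst h1
      rw [sa, sma]
      exact hw
    · by_cases h2 : u = b
      · subst h2
        rw [sb, hm.invol, sa, h.symm]
        exact hw
      · by_cases h3 : u = m a
        · subst h3
          rw [sma, smb]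
          exact hw'
        · by_cases h4 : u = m b
          · subst h4
            rw [smb, hm.invol, sb, h.symm]
            exact hw'
          · have h5 : s u = u := Equiv.swap_apply_of_ne_of_ne h2 h3
            have h6 : s (m u) = m u := by
              refine Equiv.swap_apply_of_ne_of_ne ?_ ?_
              · intro he
                apply h4
                rw [← he, hm.invol]
              · intro he
                apply h1
                rw [← hm.invol u, he, hm.invol]
            rw [h5, h6]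
            exact hm.adj u hu
  · show s (m (s a)) = b
    rw [sa, sma]
  · show s (m (s (m a))) = m b
    rw [sma, smb]
  · intro u h1 h2 h3 h4
    show s (m (s u)) = m u
    have h5 : s u = u := Equiv.swap_apply_of_ne_of_ne h2 h3
    have h6 : s (m u) = m u := by
      refine Equiv.swap_apply_of_ne_of_ne ?_ ?_
      · intro he
        apply h4
        rw [← he, hm.invol]
      · intro he
        apply h1
        rw [← hm.invol u, he, hm.invol]
    rw [h5, h6]

end aux

set_option maxRecDepth 100000 in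
theorem perm5 : ∀ τ : Equiv.Perm (Fin 5),
    (∃ j i, (τ j = i ∧ τ (j + 1) = i + 1) ∨ (τ j = i + 1 ∧ τ (j + 1) = i)) ∨
    (∀ i, ∃ j, (τ j = i ∧ τ (j + 1) = i + 2) ∨ (τ j = i + 2 ∧ τ (j + 1) = i)) := by
  decide

theorem ten (h1 : XPM) (h2 : HAM) : TEN := by
  intro V _ _ U w r h hU hc hpm
  obtain ⟨m, hm⟩ := h1 V U w (r + 1) h (Nat.succ_pos r)
  obtain ⟨X, hX, hXo, hXlt⟩ := hpm m hm
  obtain ⟨cX, tX, hmX⟩ := five h hU hc hm hX hXo hXlt
  -- the other side
  have hY : U \ X ⊆ U := Finset.sdiff_subset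
  have cY : (U \ X).card = 5 := by
    rw [Finset.card_sdiff_of_subset hX, hU, cX]
  have tY : ct w (U \ X) = r + 3 := by
    rw [h.ct_compl hX, tX]
  -- the two cycles
  have hT : ∀ S, S ⊆ U → ∀ T, T ⊆ S → T.card = 3 → r + 1 + 2 ≤ ct w T := by
    intro S hS T hT hT3
    exact cut_ge h hU hc (hT.trans hS) ⟨1, by omega⟩ (by omega) (by omega)
  obtain ⟨x, xinj, xmem, xw⟩ := h2 V U X w (r + 1) h hX cX (by omega) (hT X hX) (by
    intro s hs
    exact ⟨m s, (hmX s (hX hs)).mp hs, hm.adj s (hX hs)⟩)
  obtain ⟨z, zinj, zmem, zw⟩ := h2 V U (U \ X) w (r + 1) h hY cY (by omega) (hT _ hY) (by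
    intro s hs
    obtain ⟨hsU, hsX⟩ := Finset.mem_sdiff.mp hs
    refine ⟨m s, ?_, hm.adj s hsU⟩
    intro hms
    have := (Finset.mem_sdiff.mp hms).2
    exact hsX ((hmX s hsU).mpr this))
  have minj : Function.Injective m := fun a b hab => by
    rw [← hm.invol a, hab, hm.invol]
  have xU : ∀ i, x i ∈ U := fun i => hX (xmem i)
  have ymem : ∀ i, m (x i) ∈ U \ X := fun i =>
    Finset.mem_sdiff.mpr ⟨hm.mem h (xU i), (hmX _ (xU i)).mp (xmem i)⟩
  have ximg : Finset.univ.image x = X := by
    apply Finset.eq_of_subset_of_card_le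
    · intro v hv
      obtain ⟨i, _, rfl⟩ := Finset.mem_image.mp hv
      exact xmem i
    · rw [Finset.card_image_of_injective _ xinj, cX]
      simp
  have hτ : ∀ j, ∃ i, m (x i) = z j := by
    intro j
    obtain ⟨hzU, hzX⟩ := Finset.mem_sdiff.mp (zmem j)
    have h3 : m (z j) ∈ X := by
      by_contra h3
      exact hzX ((hmX _ hzU).mpr h3)
    rw [← ximg] at h3
    obtain ⟨i, _, hi⟩ := Finset.mem_image.mp h3
    exact ⟨i, by rw [hi, hm.invol]⟩
  choose t ht using hτ
  have tinj : Function.Injective t := fun a b hab => by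
    apply zinj
    rw [← ht a, ← ht b, hab]
  have tbij : Function.Bijective t := Finite.injective_iff_bijective.mp tinj
  set τ : Equiv.Perm (Fin 5) := Equiv.ofBijective t tbij with hτ
  have τz : ∀ j, m (x (τ j)) = z j := fun j => ht j
  rcases perm5 τ with ⟨j, i, hji⟩ | hall
  · exfalso
    have hw' : w (m (x i)) (m (x (i + 1))) ≠ 0 := by
      rcases hji with ⟨e1, e2⟩ | ⟨e1, e2⟩
      · rw [← e1, τz, e1, ← e2, τz]
        exact zw j
      · rw [h.symm, ← e1, τz, ← e2, τz]
        exact zw j
    have hne : x i ≠ x (i + 1) := by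
      intro he
      have h6 : ∀ k : Fin 5, k ≠ k + 1 := by decide
      exact h6 i (xinj he)
    have hmne : m (x i) ≠ x (i + 1) := by
      intro he
      have := (Finset.mem_sdiff.mp (ymem i)).2
      rw [he] at this
      exact this (xmem _)
    obtain ⟨m', hm', h3, h4, h5⟩ := exch h hm (xU i) (xU (i + 1)) hne hmne (xw i) hw'
    obtain ⟨Z, hZ, hZo, hZlt⟩ := hpm m' hm'
    obtain ⟨cZ, tZ, hmZ⟩ := five h hU hc hm' hZ hZo hZlt
    have hmm : ∀ u ∈ X, u ≠ x i → u ≠ x (i + 1) → m' u = m u := by
      intro u hu hu1 hu2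
      refine h5 u hu1 hu2 ?_ ?_
      · rintro rfl
        exact (Finset.mem_sdiff.mp (ymem i)).2 hu
      · rintro rfl
        exact (Finset.mem_sdiff.mp (ymem (i + 1))).2 hu
    rcases Nat.even_or_odd (X ∩ Z).card with he | ho
    · -- use the complement of `Z`
      have hcZ : (U \ Z).card = 5 := by
        rw [Finset.card_sdiff_of_subset hZ, hU, cZ]
      have htZ : ct w (U \ Z) = r + 3 := by
        rw [h.ct_compl hZ, tZ]
      refine cross h hU hc hm hX (Finset.sdiff_subset : U \ Z ⊆ U) cX hcZ tX htZ (xmem i)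
        (xmem (i + 1)) ?_ ?_ ?_
      · have := hmZ (x i) (xU i)
        rw [h3] at this
        have h6 := xU i
        have h7 := xU (i + 1)
        simp only [mem_sdiff]
        tauto
      · intro u hu hu1 hu2
        refine ⟨(hmX u (hX hu)).mp hu, ?_⟩
        have h6 := hmZ u (hX hu)
        rw [hmm u hu hu1 hu2] at h6
        have h7 := hX hu
        have h8 := hm.mem h h7
        simp only [mem_sdiff]
        tauto
      · have e1 : X ∩ (U \ Z) = X \ Z := by
          ext v
          simp only [mem_inter, mem_sdiff]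
          have := @hX v
          tauto
        rw [e1]
        have e2 : (X \ Z).card + (X ∩ Z).card = X.card := Finset.card_sdiff_add_card_inter X Z
        obtain ⟨k, hk⟩ := he
        exact ⟨2 - k, by omega⟩
    · refine cross h hU hc hm hX hZ cX cZ tX tZ (xmem i) (xmem (i + 1)) ?_ ?_ ho
      · have := hmZ (x i) (xU i)
        rw [h3] at this
        exact this
      · intro u hu hu1 hu2
        refine ⟨(hmX u (hX hu)).mp hu, ?_⟩
        have h6 := hmZ u (hX hu)
        rw [hmm u hu hu1 hu2] at h6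
        exact h6
  · refine ⟨x, fun i => m (x i), xinj, minj.comp xinj, ?_, ?_, xw, ?_, ?_⟩
    · intro i j he
      have h6 : m (x j) ∉ X := (Finset.mem_sdiff.mp (ymem j)).2
      have h7 : x i = m (x j) := he
      rw [← h7] at h6
      exact h6 (xmem i)
    · intro i
      exact ⟨xU i, hm.mem h (xU i)⟩
    · intro i
      show w (m (x i)) (m (x (i + 2))) ≠ 0
      obtain ⟨j, ⟨e1, e2⟩ | ⟨e1, e2⟩⟩ := hall i
      · rw [← e1, τz, e1, ← e2, τz]
        exact zw j
      · rw [h.symm, ← e1, τz, ← e2, τz]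
        exact zw j
    · intro i
      exact hm.adj (x i) (xU i)

end Pool.Agent.Helper53.RG3
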